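import Pool.Agent.Helper41.PS.Goals

/-!
# Project PS (MP_74f661_nt), packet VDC: van der Corput on the lines of direction `(1, .., 1)`
-/

set_option autoImplicit false

open Finset

namespace Pool.Agent.Helper44.PS.VDC

open Pool.Agent.Helper41.PS

/-- the function cut off outside `[1, x]` -/
noncomputable def cut (x : ℕ) (f : ℕ → ℝ) (n : ℕ) : ℝ := if n ∈ Icc 1 x then f n else 0

theorem cut_nonneg (x : ℕ) (f : ℕ → ℝ) (hf : ∀ n, 0 ≤ f n) (n : ℕ) : 0 ≤ cut x f n := by
  unfold cut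
  split_ifs
  · exact hf n
  · exact le_rfl

theorem sum_cut (x j : ℕ) (hj : j ≤ x) (f : ℕ → ℝ) :
    ∑ u ∈ Icc 1 (2 * x), cut x f (u - j) = ∑ n ∈ Icc 1 x, f n := by
  unfold cut
  rw [← sum_filter]
  refine Finset.sum_nbij' (fun u => u - j) (fun n => n + j) ?_ ?_ ?_ ?_ ?_
  · intro u hu
    exact (mem_filter.1 hu).2
  · intro n hn
    rw [mem_Icc] at hn
    rw [mem_filter, mem_Icc, mem_Icc]
    omega
  · intro u hu
    have h1 := (mem_filter.1 hu).2
    rw [mem_Icc] at h1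
    show u - j + j = u
    omega
  · intro n _
    show n + j - j = n
    omega
  · intro u _
    rfl

theorem main {ι : Type} [Fintype ι] [DecidableEq ι] (F : ι → ℕ → ℝ) (x H : ℕ) (hH : 1 ≤ H)
    (hHx : H ≤ x) (hF : ∀ a n, 0 ≤ F a n) :
    (H : ℝ) * ∏ a, (∑ n ∈ Icc 1 x, F a n) ^ 2 ≤
      (2 * (x : ℝ)) ^ Fintype.card ι * (∏ a, ∑ n ∈ Icc 1 x, F a n ^ 2 +
        2 * ∑ h ∈ Ico 1 H, ∏ a, ∑ n ∈ Icc 1 x, F a n * F a (n + h)) := by
  obtain ⟨U, hU⟩ : ∃ U : Finset (ι → ℕ), U = Fintype.piFinset (fun _ : ι => Icc 1 (2 * x)) :=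
    ⟨_, rfl⟩
  obtain ⟨G, hG⟩ : ∃ G : (ι → ℕ) → ℝ, G = fun u => ∑ j ∈ range H, ∏ a, cut x (F a) (u a - j) :=
    ⟨_, rfl⟩
  have h1 : ∑ u ∈ U, G u = H * ∏ a, ∑ n ∈ Icc 1 x, F a n := by
    rw [hG, sum_comm]
    have h2 : ∀ j ∈ range H, ∑ u ∈ U, ∏ a, cut x (F a) (u a - j) = ∏ a, ∑ n ∈ Icc 1 x, F a n := by
      intro j hj
      rw [mem_range] at hj
      rw [hU, ← Finset.prod_univ_sum (fun _ : ι => Icc 1 (2 * x)) (fun a u => cut x (F a) (u - j))]
      exact Finset.prod_congr rfl fun a _ => sum_cut x j (by omega) (F a)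
    rw [sum_congr rfl h2, sum_const, card_range, nsmul_eq_mul]
  have h3 : (U.card : ℝ) = (2 * (x : ℝ)) ^ Fintype.card ι := by
    rw [hU, Fintype.card_piFinset, prod_const, Nat.card_Icc, card_univ]
    push_cast
    congr 1
  have h4 : (∑ u ∈ U, G u) ^ 2 ≤ U.card * ∑ u ∈ U, G u ^ 2 := sq_sum_le_card_mul_sum_sq
  obtain ⟨D, hD⟩ : ∃ D : ℝ, D = ∏ a, ∑ n ∈ Icc 1 x, F a n ^ 2 := ⟨_, rfl⟩
  obtain ⟨Q, hQ⟩ : ∃ Q : ℕ → ℝ, Q = fun h => ∏ a, ∑ n ∈ Icc 1 x, F a n * F a (n + h) := ⟨_, rfl⟩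
  have hQ0 : ∀ h, 0 ≤ Q h := by
    intro h
    rw [hQ]
    exact prod_nonneg fun a _ => sum_nonneg fun n _ => mul_nonneg (hF _ _) (hF _ _)
  obtain ⟨P, hP⟩ : ∃ P : ℕ → ℕ → ℝ, P = fun j j' => ∏ a, ∑ u ∈ Icc 1 (2 * x),
      cut x (F a) (u - j) * cut x (F a) (u - j') := ⟨_, rfl⟩
  have hPs : ∀ j j', P j j' = P j' j := by
    intro j j'
    rw [hP]
    exact prod_congr rfl fun a _ => sum_congr rfl fun u _ => mul_comm _ _
  have hPd : ∀ j, j < H → P j j = D := by
    intro j hj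
    rw [hP, hD]
    refine prod_congr rfl fun a _ => ?_
    rw [← sum_cut x j (by omega) (fun n => F a n ^ 2)]
    refine sum_congr rfl fun u _ => ?_
    unfold cut
    split_ifs
    · ring
    · ring
  have hPl : ∀ j j', j < j' → j' < H → P j j' ≤ Q (j' - j) := by
    intro j j' h5 h6
    rw [hP, hQ]
    refine prod_le_prod (fun a _ => sum_nonneg fun u _ => mul_nonneg
      (cut_nonneg x _ (hF a) _) (cut_nonneg x _ (hF a) _)) fun a _ => ?_
    rw [← sum_cut x j' (by omega) (fun n => F a n * F a (n + (j' - j)))]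
    refine sum_le_sum fun u _ => ?_
    unfold cut
    by_cases h7 : u - j' ∈ Icc 1 x
    · rw [if_pos h7, if_pos h7]
      have h8 : u - j' + (j' - j) = u - j := by
        rw [mem_Icc] at h7
        omega
      show _ ≤ F a (u - j') * F a (u - j' + (j' - j))
      rw [h8]
      split_ifs
      · rw [mul_comm]
      · rw [zero_mul]
        exact mul_nonneg (hF _ _) (hF _ _)
    · rw [if_neg h7, if_neg h7, mul_zero]
  have h9 : ∑ u ∈ U, G u ^ 2 = ∑ j ∈ range H, ∑ j' ∈ range H, P j j' := by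
    have h10 : ∀ u ∈ U, G u ^ 2 = ∑ j ∈ range H, ∑ j' ∈ range H,
        ∏ a, (cut x (F a) (u a - j) * cut x (F a) (u a - j')) := by
      intro u _
      rw [hG, pow_two, sum_mul_sum]
      exact sum_congr rfl fun j _ => sum_congr rfl fun j' _ => prod_mul_distrib.symm
    rw [sum_congr rfl h10, sum_comm]
    refine sum_congr rfl fun j _ => ?_
    rw [sum_comm]
    refine sum_congr rfl fun j' _ => ?_
    rw [hU, hP]
    exact (Finset.prod_univ_sum (fun _ : ι => Icc 1 (2 * x))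
      (fun a u => cut x (F a) (u - j) * cut x (F a) (u - j'))).symm
  have h11 : ∀ j ∈ range H, ∑ j' ∈ range H, P j j' ≤ D + 2 * ∑ h ∈ Ico 1 H, Q h := by
    intro j hj
    rw [mem_range] at hj
    have h12 : ∑ j' ∈ range H, P j j' ≤ ∑ j' ∈ range H, ((if j' = j then D else 0) +
        ((if j < j' then Q (j' - j) else 0) + (if j' < j then Q (j - j') else 0))) := by
      refine sum_le_sum fun j' hj' => ?_
      rw [mem_range] at hj'
      rcases lt_trichotomy j' j with h | h | h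
      · rw [if_neg h.ne, if_neg (not_lt.2 h.le), if_pos h, zero_add, zero_add, hPs]
        exact hPl j' j h hj
      · subst h
        rw [if_pos rfl, if_neg (lt_irrefl _), add_zero, add_zero, hPd _ hj]
      · rw [if_neg h.ne', if_pos h, if_neg (not_lt.2 h.le), zero_add, add_zero]
        exact hPl j j' h hj'
    have h13 : ∑ j' ∈ range H, (if j' = j then D else 0) = D := by
      rw [sum_ite_eq', if_pos (mem_range.2 hj)]
    have h14 : ∑ j' ∈ range H, (if j < j' then Q (j' - j) else 0) ≤ ∑ h ∈ Ico 1 H, Q h := by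
      rw [← sum_filter]
      have h15 : ∑ j' ∈ (range H).filter (fun j' => j < j'), Q (j' - j) =
          ∑ h ∈ ((range H).filter (fun j' => j < j')).image (fun j' => j' - j), Q h := by
        rw [sum_image]
        intro y hy z hz hyz
        have h16 := (mem_filter.1 hy).2
        have h17 := (mem_filter.1 hz).2
        have h18 : y - j = z - j := hyz
        omega
      rw [h15]
      refine sum_le_sum_of_subset_of_nonneg ?_ fun h _ _ => hQ0 h
      intro h hh
      obtain ⟨y, hy, rfl⟩ := mem_image.1 hh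
      have h16 := mem_filter.1 hy
      have h17 := mem_range.1 h16.1
      rw [mem_Ico]
      have := h16.2
      omega
    have h19 : ∑ j' ∈ range H, (if j' < j then Q (j - j') else 0) ≤ ∑ h ∈ Ico 1 H, Q h := by
      rw [← sum_filter]
      have h15 : ∑ j' ∈ (range H).filter (fun j' => j' < j), Q (j - j') =
          ∑ h ∈ ((range H).filter (fun j' => j' < j)).image (fun j' => j - j'), Q h := by
        rw [sum_image]
        intro y hy z hz hyz
        have h16 := (mem_filter.1 hy).2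
        have h17 := (mem_filter.1 hz).2
        have h18 : j - y = j - z := hyz
        omega
      rw [h15]
      refine sum_le_sum_of_subset_of_nonneg ?_ fun h _ _ => hQ0 h
      intro h hh
      obtain ⟨y, hy, rfl⟩ := mem_image.1 hh
      have h16 := mem_filter.1 hy
      have h17 := mem_range.1 h16.1
      rw [mem_Ico]
      have := h16.2
      omega
    rw [sum_add_distrib, sum_add_distrib, h13] at h12
    linarith
  have h20 : ∑ u ∈ U, G u ^ 2 ≤ H * (D + 2 * ∑ h ∈ Ico 1 H, Q h) := by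
    rw [h9]
    calc ∑ j ∈ range H, ∑ j' ∈ range H, P j j'
        ≤ ∑ _j ∈ range H, (D + 2 * ∑ h ∈ Ico 1 H, Q h) := sum_le_sum h11
      _ = _ := by rw [sum_const, card_range, nsmul_eq_mul]
  have hHp : (0 : ℝ) < H := by exact_mod_cast hH
  have hcard : (0 : ℝ) ≤ U.card := Nat.cast_nonneg _
  have h21 : (H * ∏ a, ∑ n ∈ Icc 1 x, F a n) ^ 2 ≤
      U.card * (H * (D + 2 * ∑ h ∈ Ico 1 H, Q h)) := by
    rw [← h1]
    exact h4.trans (mul_le_mul_of_nonneg_left h20 hcard)
  rw [h3] at h21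
  have h22 : (H : ℝ) * (H * ∏ a, (∑ n ∈ Icc 1 x, F a n) ^ 2) ≤
      H * ((2 * (x : ℝ)) ^ Fintype.card ι * (D + 2 * ∑ h ∈ Ico 1 H, Q h)) := by
    calc (H : ℝ) * (H * ∏ a, (∑ n ∈ Icc 1 x, F a n) ^ 2)
        = (H * ∏ a, ∑ n ∈ Icc 1 x, F a n) ^ 2 := by
          rw [prod_pow]
          ring
      _ ≤ _ := h21
      _ = _ := by ring
  have h23 := le_of_mul_le_mul_left h22 hHp
  rw [hD, hQ] at h23
  exact h23

theorem t : StmtVDC := by
  intro A F x H hH hHx hF
  have h := main (ι := A) (fun a n => F a n) x H hH hHx (fun a n => hF a n)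
  rw [Finset.prod_coe_sort A (fun a => (∑ n ∈ Icc 1 x, F a n) ^ 2),
    Finset.prod_coe_sort A (fun a => ∑ n ∈ Icc 1 x, F a n ^ 2), Fintype.card_coe] at h
  have h2 : ∀ h : ℕ, ∏ a : A, ∑ n ∈ Icc 1 x, F a n * F a (n + h) =
      ∏ a ∈ A, ∑ n ∈ Icc 1 x, F a n * F a (n + h) := fun h =>
    Finset.prod_coe_sort A (fun a => ∑ n ∈ Icc 1 x, F a n * F a (n + h))
  simp only [h2] at h
  exact h

end Pool.Agent.Helper44.PS.VDC
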